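import Mathlib

/-!
# Schedule with look-ahead (set systems of maximum degree `t`, any number of points): definitions
-/

namespace Pool.Agent.Helper92.SL

open Finset MeasureTheory
open scoped Classical

noncomputable section

/-- the bounded square -/
def Ph (x : ℝ) : ℝ := x ^ 2 / (1 + x ^ 2)

variable {V J : Type} [Fintype V] [Fintype J]

omit [Fintype V] in
/-- the vector `A^T y` -/
def ff (A : J → V → ℝ) (y : J → ℝ) (v : V) : ℝ := ∑ j, A j v * y j

/-- the energy -/
def En (A : J → V → ℝ) (L : J → ℝ) (w : V → ℝ) (e : J → ℝ) : ℝ :=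
  2 * ∑ j, Real.log (1 + L j * e j ^ 2) + ∑ v, w v * Ph (ff A e v)

/-- the partition function -/
def ZZ (A : J → V → ℝ) (L : J → ℝ) (w : V → ℝ) : ℝ := ∫ e : J → ℝ, Real.exp (-(En A L w e))

/-- the free energy, normalised -/
def Phi (A : J → V → ℝ) (L0 : ℝ) (L : J → ℝ) (w : V → ℝ) : ℝ :=
  Real.log (ZZ A L w / ZZ A (fun _ => L0) 0) - 1 / 2 * ∑ j, Real.log (L0 / L j)

/-- the probability that `|f_u| > 1/4` -/
def un (A : J → V → ℝ) (L : J → ℝ) (w : V → ℝ) (u : V) : ℝ :=
  (∫ e in {e : J → ℝ | 1 / 4 < |ff A e u|}, Real.exp (-(En A L w e))) / ZZ A L w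

omit [Fintype V] [Fintype J] in
/-- incidence matrix -/
def inc (S : J → Finset V) (j : J) (v : V) : ℝ := if v ∈ S j then 1 else 0

omit [Fintype V] [Fintype J] in
/-- number of points of the set `j` with rank at least `l` -/
def XX (S : J → Finset V) (k : V → ℕ) (l : ℕ) (j : J) : ℕ := #((S j).filter (fun v => l ≤ k v))

/-- the ridge as a function of the number of points -/
def Lf (L0 : ℝ) (m0 a X : ℕ) : ℝ := L0 * ((m0 : ℝ) / (max X m0 : ℕ)) ^ a

omit [Fintype V] [Fintype J] in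
/-- the ridge at level `i` (look-ahead `q`) -/
def Lk (S : J → Finset V) (k : V → ℕ) (L0 : ℝ) (m0 a q i : ℕ) (j : J) : ℝ :=
  Lf L0 m0 a (XX S k (i + q) j)

omit [Fintype V] in
/-- domination weights of level `i` -/
def wZ (k : V → ℕ) (i : ℕ) (v : V) : ℝ := if k v = i + 1 then 1 else if k v = i then -(1 / 160000) else 0

omit [Fintype V] in
/-- leverage weights of level `i` -/
def wY (c0 : ℝ) (r0 : ℕ) (k : V → ℕ) (i : ℕ) (v : V) : ℝ :=
  if i + 1 ≤ k v ∧ k v ≤ i + r0 then c0 else 0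

end

end Pool.Agent.Helper92.SL
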