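import Pool.Agent.Helper92.SL.Defs
import Pool.Agent.Helper38.ZS.Stmts

/-!
# Schedule with look-ahead: statements of the modules
-/

namespace Pool.Agent.Helper92.SL

open Finset MeasureTheory
open scoped Classical
open Pool.Agent.Helper38.ZS (IsPr ap)

noncomputable section

/-- 1. second differences -/
def ST_CALC : Prop :=
  (∀ a b : ℝ, (Ph (b + a) + Ph (b - a)) / 2 - Ph b ≤ Ph a) ∧
  (∀ a b : ℝ, |b| ≤ 1 / 4 → 67 / 100 * Ph a ≤ (Ph (b + a) + Ph (b - a)) / 2 - Ph b) ∧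
  (∀ a b : ℝ, -(6 / 10 * Ph a) ≤ (Ph (b + a) + Ph (b - a)) / 2 - Ph b) ∧
  (∀ L a x : ℝ, 0 ≤ L → (Real.log (1 + L * (x + a) ^ 2) + Real.log (1 + L * (x - a) ^ 2)) / 2
    - Real.log (1 + L * x ^ 2) ≤ Real.log (1 + L * a ^ 2))

/-- 2. the free energy as a function of the weights -/
def ST_P1 : Prop :=
  ∀ (V J : Type) [Fintype V] [Fintype J] (A : J → V → ℝ) (L0 : ℝ) (L : J → ℝ), 0 < L0 →
    (∀ j, 0 < L j) →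
    (∀ w w' : V → ℝ, Phi A L0 L w' ≤ Phi A L0 L w + ∑ v, max (w v - w' v) 0) ∧
    (∀ (w : V → ℝ) (u : V) (d p : ℝ), 0 ≤ d → 0 ≤ p → p ≤ un A L w u →
      Phi A L0 L (Function.update w u (w u + d)) ≤ Phi A L0 L w - p * (1 - Real.exp (-(d / 17))))

/-- 3. the free energy as a function of the ridge -/
def ST_P2 : Prop :=
  ∀ (V J : Type) [Fintype V] [Fintype J] (A : J → V → ℝ) (L0 : ℝ) (L L' : J → ℝ) (w : V → ℝ),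
    0 < L0 → (∀ j, 0 < L' j) → (∀ j, L' j ≤ L j) →
    Phi A L0 L' w ≤ Phi A L0 L w + 3 / 2 * ∑ j, Real.log (L j / L' j)

/-- 4. lower bound of the free energy -/
def ST_P3 : Prop :=
  ∀ (V J : Type) [Fintype V] [Fintype J] (A : J → V → ℝ) (L0 t : ℝ) (L : J → ℝ) (w : V → ℝ),
    0 < L0 → (∀ j, 0 < L j) → (∀ j, L j ≤ L0) → (∀ v, ∑ j, A j v ^ 2 ≤ t) →
    -(t / L0 * ∑ v, max (w v) 0) - 1 / 2 * ∑ j, Real.log (L0 / L j) ≤ Phi A L0 L w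

/-- 5. domination -/
def ST_DOM : Prop :=
  ∀ (V J : Type) [Fintype V] [Fintype J] (A : J → V → ℝ) (L : J → ℝ) (θ : ℝ) (E R : Finset V),
    (∀ j, 0 < L j) → 0 < θ → Disjoint E R →
    (∀ u ∈ E, un A L (fun v => if v ∈ R then 1 else if v ∈ E then -θ else 0) u ≤ 1 / 4) →
    ∀ y : J → ℝ, 35 / 100 * θ * ∑ u ∈ E, Ph (ff A y u)
      ≤ ∑ v ∈ R, Ph (ff A y v) + 2 * ∑ j, Real.log (1 + L j * y j ^ 2)

/-- 6. from the bounded square to the `l1` norm -/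
def ST_L1 : Prop :=
  ∀ (V J : Type) [Fintype V] [Fintype J] (E R : Finset V) (f : V → ℝ) (L y : J → ℝ) (c : ℝ),
    0 ≤ c → (∀ j, 0 ≤ L j) →
    (∀ h : ℝ, 0 < h → c * ∑ u ∈ E, Ph (f u / h)
      ≤ ∑ v ∈ R, Ph (f v / h) + 2 * ∑ j, Real.log (1 + L j * (y j / h) ^ 2)) →
    c * ∑ u ∈ E, |f u| ≤ ∑ v ∈ R, |f v| + 4 * ∑ j, Real.sqrt (L j) * |y j|

/-- 7. leverage -/
def ST_LEV : Prop :=
  ∀ (V J : Type) [Fintype V] [Fintype J] (A : J → V → ℝ) (L : J → ℝ) (c0 p1 : ℝ) (R : Finset V)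
    (u : V), (∀ j, 0 < L j) → 0 ≤ c0 → 0 < p1 → p1 < 1 / 2 →
    un A L (fun v => if v ∈ R then c0 else 0) u ≤ p1 →
    ∀ y : J → ℝ, Real.log ((1 - p1) / p1) * ff A y u ^ 2
      ≤ c0 * ∑ v ∈ R, ff A y v ^ 2 + 2 * ∑ j, L j * y j ^ 2

/-- 8. the schedule -/
def ST_SCHED : Prop :=
  ∀ (t m0 a q r0 : ℕ) (L0 c0 κ p1 : ℝ), 1 ≤ t → 1 ≤ m0 → 1 ≤ r0 → r0 < q → 0 < c0 → c0 ≤ 1 →
    0 < κ → 0 < p1 → 1 / 80 ≤ κ * p1 * c0 / 18 → κ * c0 ≤ 400 ^ r0 / 1000 →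
    3200 * (1 + κ * c0) * t ≤ L0 → 1600 * (1 + κ) * a * t / m0 ≤ 400 ^ (q - 1) →
    ∀ (V J : Type) [Fintype V] [Fintype J] (S : J → Finset V),
      (∀ v, #(univ.filter (fun j => v ∈ S j)) ≤ t) →
      ∃ k : V → ℕ, ∀ u,
        un (inc S) (Lk S k L0 m0 a q (k u)) (wZ k (k u)) u ≤ 1 / 4 ∧
        un (inc S) (Lk S k L0 m0 a q (k u)) (wY c0 r0 k (k u)) u ≤ p1

/-- 9. signs with prescribed means on a part of the coordinates -/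
def ST_SIGN2 : Prop :=
  ∀ β : ℝ, 0 < β → β ≤ 1 → ∃ η : ℝ, 0 < η ∧
    ∀ (ι : Type) [Fintype ι] (P : ι → ι → ℝ) (E : Finset ι) (z : ι → ℝ), IsPr P →
      (∀ i, P i i ≤ η) → (∀ i, |z i| ≤ 1) →
      ∃ x : ι → ℝ, (∀ i, x i = 1 ∨ x i = -1) ∧
        ∀ f : ι → ℝ, ap P f = f → ∑ i ∈ E, (x i - z i) * f i ≤ β * ∑ i, |f i|

/-- 10. the same for the range of a linear map -/
def ST_SPACE : Prop :=
  ∀ β : ℝ, 0 < β → β ≤ 1 → ∃ η : ℝ, 0 < η ∧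
    ∀ (J ι : Type) [Fintype J] [Fintype ι] (F : (J → ℝ) →ₗ[ℝ] (ι → ℝ)) (E : Finset ι) (z : ι → ℝ),
      (∀ y i, F y i ^ 2 ≤ η * ∑ l, F y l ^ 2) → (∀ i, |z i| ≤ 1) →
      ∃ x : ι → ℝ, (∀ i, x i = 1 ∨ x i = -1) ∧
        ∀ y, ∑ i ∈ E, (x i - z i) * F y i ≤ β * ∑ i, |F y i|

/-- 11. one level: for `β` there is a natural number `N` with the following property -/
def ST_LEVEL : Prop :=
  ∀ β : ℝ, 0 < β → β ≤ 1 → ∃ N : ℕ, 1 ≤ N ∧ ∀ β' θ : ℝ, 0 < β' → 0 < θ →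
    ∀ (V J : Type) [Fintype V] [Fintype J] (A : J → V → ℝ) (L : J → ℝ) (E R1 R : Finset V)
      (z : V → ℝ), (∀ j, 0 < L j) → R1 ⊆ R → Disjoint E R → (∀ v, |z v| ≤ 1) →
      (∀ y : J → ℝ, 35 / 100 * θ * ∑ u ∈ E, |ff A y u|
        ≤ ∑ v ∈ R1, |ff A y v| + 4 * ∑ j, Real.sqrt (L j) * |y j|) →
      (∀ u ∈ E, ∀ y : J → ℝ, N * ff A y u ^ 2
        ≤ (β' / β) ^ 2 / N * ∑ v ∈ R, ff A y v ^ 2 + 2 * ∑ j, L j * y j ^ 2) →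
      ∃ x d : V → ℝ, (∀ v, x v = 1 ∨ x v = -1) ∧ (∀ v, v ∉ R → d v = 0) ∧
        (∀ v ∈ R, |d v| ≤ β' + if v ∈ R1 then β / (35 / 100 * θ) else 0) ∧
        ∀ j, |∑ u ∈ E, A j u * (x u - z u) - ∑ v ∈ R, A j v * d v|
          ≤ (β * Real.sqrt (2 * N) + 4 * (β / (35 / 100 * θ))) * Real.sqrt (L j)

/-- 12. iteration over the levels; `b r` bounds the displacement of the points `r` levels ahead,
`ρ i j` the error of level `i` -/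
def ST_ITER : Prop :=
  ∀ (V J : Type) [Fintype V] [Fintype J] (S : J → Finset V) (k : V → ℕ) (r0 : ℕ) (b : ℕ → ℝ)
    (ρ : ℕ → J → ℝ), (∀ r, 0 ≤ b r) → ∑ r ∈ range r0, b (r + 1) ≤ 1 → (∀ i j, 0 ≤ ρ i j) →
    (∀ (i : ℕ) (z : V → ℝ), (∀ v, |z v| ≤ 1) → ∃ x d : V → ℝ, (∀ v, x v = 1 ∨ x v = -1) ∧
      (∀ v, ¬ (i + 1 ≤ k v ∧ k v ≤ i + r0) → d v = 0) ∧
      (∀ v, i + 1 ≤ k v → k v ≤ i + r0 → |d v| ≤ b (k v - i)) ∧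
      ∀ j, |∑ v ∈ (S j).filter (fun v => k v = i), (x v - z v) - ∑ v ∈ S j, d v| ≤ ρ i j) →
    ∃ x : V → ℝ, (∀ v, x v = 1 ∨ x v = -1) ∧ ∀ (j : J) (n : ℕ), |∑ v ∈ S j, x v|
      ≤ ∑ i ∈ (range n).filter (fun i => ∃ v ∈ S j, i ≤ k v ∧ k v ≤ i + r0), ρ i j
        + 2 * XX S k n j

/-- 13. accounting -/
def ST_ACC : Prop :=
  ∀ (V J : Type) [Fintype V] [Fintype J] (S : J → Finset V) (k : V → ℕ) (r0 q m0 a : ℕ) (L0 : ℝ)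
    (j : J), 0 < L0 → 1 ≤ m0 → 2 ≤ a → r0 < q → ∃ n : ℕ,
    ∑ i ∈ (range n).filter (fun i => ∃ v ∈ S j, i ≤ k v ∧ k v ≤ i + r0),
        Real.sqrt (Lk S k L0 m0 (2 * a) q i j) + 2 * XX S k n j
      ≤ q * Real.sqrt L0 + 4 * m0 + q * Real.sqrt L0 * (4 * m0) / 2 ^ a

/-- 14. MAIN: for every set system of maximum degree `t` -/
def ST_MAIN : Prop :=
  ∃ C : ℝ, ∀ (n m t : ℕ) (S : Fin m → Finset (Fin n)), 1 ≤ t →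
    (∀ v, #(univ.filter (fun j => v ∈ S j)) ≤ t) →
    ∃ χ : Fin n → ℝ, (∀ v, χ v = 1 ∨ χ v = -1) ∧
      ∀ j, |∑ v ∈ S j, χ v| ≤ C * Real.sqrt t * (1 + Real.log t)

end

end Pool.Agent.Helper92.SL
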